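import Pool.Agent.BOG.Stmts

/-! Squad BOG, row FDM (helper91): finite dimensionality. -/

set_option autoImplicit false

namespace Pool.Agent.BOG.H91

open Polynomial Finset Pool.Agent.BOG

universe v

variable {K : Type v} [Field K]

theorem finrank_degreeLT (n : ℕ) : Module.finrank K (degreeLT K n) = n := by
  rw [(degreeLTEquiv K n).finrank_eq]
  simp

instance finite_degreeLT (n : ℕ) : Module.Finite K (degreeLT K n) :=
  Module.Finite.equiv (degreeLTEquiv K n).symm

/-- the coefficients -/
noncomputable def coef (d : ℕ) : TD K d →ₗ[K] ((i : Fin d) → degreeLT K (d - i)) where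
  toFun F i := ⟨F.1.coeff i, F.2 i⟩
  map_add' a b := by
    funext i
    apply Subtype.ext
    simp
  map_smul' r a := by
    funext i
    apply Subtype.ext
    simp [coeff_smul]

theorem coef_injective (d : ℕ) : Function.Injective (coef (K := K) d) := by
  intro F G hFG
  apply Subtype.ext
  ext1 i
  by_cases hi : i < d
  · have h1 := congrFun hFG ⟨i, hi⟩
    exact congrArg Subtype.val h1
  · have h0 : ∀ H : TD K d, H.1.coeff i = 0 := by
      intro H
      have h1 := H.2 i
      rw [show d - i = 0 by omega] at h1
      rw [mem_degreeLT] at h1
      by_contra h3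
      have h4 := zero_le_degree_iff.2 h3
      exact absurd h1 (not_lt.2 (by simpa using h4))
    rw [h0 F, h0 G]

theorem coef_surjective (d : ℕ) : Function.Surjective (coef (K := K) d) := by
  intro g
  refine ⟨⟨∑ i : Fin d, monomial (i : ℕ) ((g i : K[X])), fun k => ?_⟩, ?_⟩
  · rw [finset_sum_coeff]
    refine Submodule.sum_mem _ fun i _ => ?_
    rw [coeff_monomial]
    split
    · rename_i h
      rw [← h]
      exact (g i).2
    · exact Submodule.zero_mem _
  · funext k
    apply Subtype.ext
    change (∑ i : Fin d, monomial (i : ℕ) ((g i : K[X]))).coeff (k : ℕ) = g k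
    rw [finset_sum_coeff, Finset.sum_eq_single k]
    · rw [coeff_monomial, if_pos rfl]
    · intro b _ hb
      rw [coeff_monomial, if_neg]
      exact fun h => hb (Fin.ext h)
    · intro h
      exact absurd (Finset.mem_univ k) h

instance finite_TD (d : ℕ) : Module.Finite K (TD K d) :=
  Module.Finite.of_injective (coef d) (coef_injective d)

theorem fdm : FdmStmt.{v} := by
  intro K _ n m c ν j
  refine ⟨?_, ?_, inferInstance, ?_⟩
  · let f : EE m c ν j →ₗ[K] (Fin 3 → degreeLT K j) :=
      { toFun := fun θ a => ⟨θ.1 a, θ.2.1 a⟩
        map_add' := fun a b => by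
          funext i
          apply Subtype.ext
          simp
        map_smul' := fun r a => by
          funext i
          apply Subtype.ext
          simp }
    refine Module.Finite.of_injective f fun a b hab => ?_
    apply Subtype.ext
    funext i
    exact congrArg Subtype.val (congrFun hab i)
  · let f : MM m c ν j →ₗ[K] (Fin 3 → ((i : Fin j) → degreeLT K (j - i))) :=
      { toFun := fun θ a i => ⟨(θ.1 a).coeff i, θ.2.1 a i⟩
        map_add' := fun a b => by
          funext i k
          apply Subtype.ext
          simp
        map_smul' := fun r a => by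
          funext i k
          apply Subtype.ext
          simp [coeff_smul] }
    refine Module.Finite.of_injective f fun a b hab => ?_
    apply Subtype.ext
    funext i
    have h1 : coef j ⟨a.1 i, a.2.1 i⟩ = coef j ⟨b.1 i, b.2.1 i⟩ := congrFun hab i
    exact congrArg Subtype.val (coef_injective j h1)
  · rw [(LinearEquiv.ofBijective (coef (K := K) j) ⟨coef_injective j, coef_surjective j⟩).finrank_eq,
      Module.finrank_pi_fintype]
    simp only [finrank_degreeLT]
    rw [Fin.sum_univ_eq_sum_range (fun i => j - i) j]
    induction j with
    | zero => simp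
    | succ j ih =>
      rw [Finset.sum_range_succ', Nat.choose_succ_succ' (j + 1) 1, Nat.choose_one_right, ← ih]
      have : ∑ k ∈ range j, (j + 1 - (k + 1)) = ∑ i ∈ range j, (j - i) :=
        Finset.sum_congr rfl fun k _ => by omega
      rw [this]
      omega

end Pool.Agent.BOG.H91
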